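import Pool.Agent.H46.CH.AS
import Pool.Agent.H33.VR.Cf
import Pool.Agent.H65.VR.GM

/-!
# Row JCn: the union of two structures, with recolouring
-/

set_option autoImplicit false

namespace Pool.Agent.H1.CHE

open Classical Pool.Agent.H8.VR Pool.Agent.H69.VR Pool.Agent.H46.CH

theorem num_image {A B : Type} [Fintype A] [Fintype B] (f : A → B) (hf : Function.Injective f)
    (X : Set A) (P : B → Prop) :
    num (fun b => b ∈ f '' X ∧ P b) = num fun a => a ∈ X ∧ P (f a) := by
  unfold num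
  rw [← Finset.card_image_of_injective _ hf]
  congr 1
  ext b
  simp only [Finset.mem_filter, Finset.mem_univ, true_and, Finset.mem_image, Set.mem_image]
  constructor
  · rintro ⟨⟨a, h1, rfl⟩, h2⟩
    exact ⟨a, ⟨h1, h2⟩, rfl⟩
  · rintro ⟨a, ⟨h1, h2⟩, rfl⟩
    exact ⟨⟨a, h1, rfl⟩, h2⟩

/-- the types of the union -/
def thJ {N Q L T O A B : Type} (S : Sg N Q L T O) (th : A → A → T) (th' : B → B → T)
    (h : A → B → T) : A ⊕ B → A ⊕ B → T
  | .inl a, .inl a' => th a a'
  | .inr b, .inr b' => th' b b'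
  | .inl a, .inr b => h a b
  | .inr b, .inl a => S.sw (h a b)

theorem pf_JCn : Pool.Agent.H46.CH.T_JCn := by
  intro N Q L T O S hT o A B _ _ lam th X col lam' th' Y col' h hS hS' hG hG' hal
  have i1 : Set.InjOn (Sum.inl : A → A ⊕ B) X := Sum.inl_injective.injOn
  have i2 : Set.InjOn (Sum.inr : B → A ⊕ B) Y := Sum.inr_injective.injOn
  have hdis : Disjoint (Sum.inl '' X : Set (A ⊕ B)) (Sum.inr '' Y) := by
    rw [Set.disjoint_left]
    rintro _ ⟨a, _, rfl⟩ ⟨b, _, h⟩
    exact absurd h (by simp)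
  refine ⟨thJ S th th' h, ?_, ?_, ?_, ?_⟩
  · intro a b hab
    rcases a with a | a <;> rcases b with b | b
    · exact hS a b fun h => hab (by rw [h])
    · rfl
    · exact (S.sw_sw _).symm
    · exact hS' a b fun h => hab (by rw [h])
  · refine Sg.Gen.op o (Sum.inl '' X) (Sum.inr '' Y) _ (Sum.elim col col') (Sum.elim col col')
      ?_ ?_ hdis ?_ ?_ ?_ ?_
    · exact Pool.Agent.H65.VR.pf_GM N Q L T O A (A ⊕ B) S lam th _ X col hG Sum.inl i1 _ _ _
        (fun _ _ => rfl) (fun _ _ _ _ _ => rfl) (fun _ _ => rfl)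
    · exact Pool.Agent.H65.VR.pf_GM N Q L T O B (A ⊕ B) S lam' th' _ Y col' hG' Sum.inr i2 _ _ _
        (fun _ _ => rfl) (fun _ _ _ _ _ => rfl) (fun _ _ => rfl)
    · rw [i1.ncard_image, i2.ncard_image]
      exact hT o _ _ ((Set.ncard_pos (Set.toFinite X)).2 (Pool.Agent.H33.VR.gen_nonempty hG))
        ((Set.ncard_pos (Set.toFinite Y)).2 (Pool.Agent.H33.VR.gen_nonempty hG'))
    · rintro _ ⟨x, hx, rfl⟩ _ ⟨y, hy, rfl⟩
      exact hal x hx y hy
    · rintro _ ⟨x, hx, rfl⟩
      rfl
    · rintro _ ⟨y, hy, rfl⟩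
      rfl
  · intro x hx z
    rw [kn_union _ _ _ _ hdis]
    unfold kn
    rw [num_image Sum.inl Sum.inl_injective, num_image Sum.inr Sum.inr_injective]
    congr 1
    · refine num_congr fun a => ?_
      simp only [Sum.elim_inl, ne_eq, Sum.inl.injEq, thJ]
    · refine num_congr fun b => ?_
      simp only [Sum.elim_inr, ne_eq, reduceCtorEq, not_false_eq_true, true_and, thJ]
  · intro y hy z
    rw [kn_union _ _ _ _ hdis, add_comm]
    unfold kn
    rw [num_image Sum.inl Sum.inl_injective, num_image Sum.inr Sum.inr_injective]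
    congr 1
    · refine num_congr fun a => ?_
      simp only [Sum.elim_inr, ne_eq, Sum.inr.injEq, thJ]
    · refine num_congr fun b => ?_
      simp only [Sum.elim_inl, ne_eq, reduceCtorEq, not_false_eq_true, true_and, thJ]

end Pool.Agent.H1.CHE
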